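import Pool.Agent.Helper25_CN2.Stmts

/-!
Squad CN2: K_SBE and K_SBS, the scales of the components.
-/

namespace Pool.Agent.CN2.H62

open Pool.Agent.H25Cong Pool.Agent.CON

variable {M : Type} [AddCommGroup M] {b : M → M → ℤ}

lemma big_rk {C : Set M} {s : ℤ} {τ : Ty} (h : HasTy b C s τ) (hb : τ.big) : 4 ≤ τ.rk := by
  cases τ with
  | A k => exact hb
  | D k => exact h.1
  | E k =>
    have : k = 6 ∨ k = 7 ∨ k = 8 := h.1
    show 4 ≤ k
    omega

lemma a1_no_rk {C : Set M} {s : ℤ} (h : HasTy b C s (.A 1)) : ¬ Rk C 2 := by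
  rintro ⟨c, hc, hl⟩
  obtain ⟨-, v, -, hv⟩ := h
  have key : ∀ i, c i = v 0 ∨ c i = - v 0 := by
    intro i
    rcases hv (c i) (hc i) with ⟨j, hj⟩ | ⟨j, l, hjl, -⟩
    · rw [Subsingleton.elim j 0] at hj
      exact hj
    · exact absurd (Subsingleton.elim j l) hjl
  rw [Fintype.linearIndependent_iff] at hl
  have h2 : ∃ e : ℤ, e ≠ 0 ∧ c 0 = e • c 1 := by
    rcases key 0 with h0 | h0 <;> rcases key 1 with h1 | h1
    · exact ⟨1, by norm_num, by rw [h0, h1, one_smul]⟩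
    · exact ⟨-1, by norm_num, by rw [h0, h1, smul_neg, neg_smul, one_smul, neg_neg]⟩
    · exact ⟨-1, by norm_num, by rw [h0, h1, neg_smul, one_smul]⟩
    · exact ⟨1, by norm_num, by rw [h0, h1, one_smul]⟩
  obtain ⟨e, -, he⟩ := h2
  have := hl ![1, -e] (by
    rw [Fin.sum_univ_two]
    simp only [Matrix.cons_val_zero, Matrix.cons_val_one]
    rw [one_smul, he, neg_smul, add_neg_cancel]) 0
  simp at this

lemma nodup_two {k : ℕ} {a b : Fin k} (h : a ≠ b) : [a, b].Nodup := by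
  simp [h]

lemma nodup_three {k : ℕ} {a b c : Fin k} (h1 : a ≠ b) (h2 : a ≠ c) (h3 : b ≠ c) :
    [a, b, c].Nodup := by
  simp [h1, h2, h3]

theorem k_sbe (x_equ : X_EQU) (t_fix : T_FIX) (j_root : J_ROOT) (j_ev : J_EV) (e_non : E_NON)
    (t_rk : T_RK) : K_SBE := by
  intro M _ b k C s τ hp ct hb i0 i1 h0 h1 hA
  have hne : i0 ≠ i1 := by rintro rfl; exact h0 h1
  have hA1 : HasTy b (C i1) (s i1) (.A 1) := hA ▸ ct.ty i1
  obtain ⟨α, hα⟩ := (ct.irr i1).ne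
  have hαn := (ct.irr i1).norm α hα
  have hαc : α ∈ AddSubgroup.closure (C i1) := AddSubgroup.subset_closure hα
  have jα := j_ev M b (C i1) (s i1) α hp (ct.irr i1) h1 hα
  obtain ⟨s1, hs1⟩ := h1
  refine ⟨fun hf => ?_, fun hbig i2 h2 hA2 => ?_⟩
  · obtain ⟨x, hx, hx4, ⟨y, hy, hxy⟩, jx⟩ := t_fix M b (C i0) (s i0) (τ i0) hp (ct.irr i0) h0
      (ct.ty i0) hf
    obtain ⟨ρ, -, -, hρ⟩ := x_equ M b k C s τ
      [(i0, x, 2, fun ρ _ => ρ = 2 * s i0), (i1, α, 2, fun ρ t =>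
        (ρ = s i1 ∧ (t = α ∨ t = -α)) ∨ (ρ = 3 * s i1 ∧ b t α = 0 ∧ Rk (C i1) 2 ∧ ¬ Rk (C i1) 3))]
      hp ct hb (nodup_two hne) (by
        intro a ha
        simp only [List.mem_cons, List.not_mem_nil, or_false] at ha
        rcases ha with rfl | rfl
        · exact ⟨hx, jx⟩
        · exact ⟨hαc, jα⟩) (by simp) (by
        simp only [List.map_cons, List.map_nil, List.sum_cons, List.sum_nil]
        rw [hαn]
        omega) ⟨_, List.mem_cons_self, y, hy, hxy⟩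
    obtain ⟨t, ht⟩ := hρ _ List.mem_cons_self
    obtain ⟨t', ht'⟩ := hρ _ (List.mem_cons_of_mem _ List.mem_cons_self)
    have e1 : ρ = 2 * s i0 := ht
    rcases ht' with ⟨e2, -⟩ | ⟨-, -, e3, -⟩
    · omega
    · exact absurd e3 (a1_no_rk hA1)
  · have hA2' : HasTy b (C i2) (s i2) (.A 1) := hA2 ▸ ct.ty i2
    have hr := big_rk (ct.ty i0) hbig
    have hn02 : i0 ≠ i2 := by
      rintro rfl
      rw [hA2] at hr
      exact absurd hr (by show ¬ 4 ≤ 1; omega)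
    have hn12 : i2 ≠ i1 := by
      rintro rfl
      exact h2 ⟨s1, hs1⟩
    obtain ⟨β, hβ, β', hβ', hββ⟩ := e_non M b (C i0) (s i0) hp (ct.irr i0)
      ((t_rk M b (C i0) (s i0) (τ i0) hp (ct.irr i0) (ct.ty i0) 2).2 (by omega))
    have h3 : Rk (C i0) 3 := (t_rk M b (C i0) (s i0) (τ i0) hp (ct.irr i0) (ct.ty i0) 3).2 (by omega)
    have hβn := (ct.irr i0).norm β hβ
    have jβ := j_root M b (C i0) (s i0) β hp (ct.irr i0) h0 hβ
    obtain ⟨γ, hγ⟩ := (ct.irr i2).ne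
    have hγn := (ct.irr i2).norm γ hγ
    have jγ := j_root M b (C i2) (s i2) γ hp (ct.irr i2) h2 hγ
    obtain ⟨ρ, -, -, hρ⟩ := x_equ M b k C s τ
      [(i0, β, 1, fun ρ t => (ρ = 2 * s i0 ∧ (t = β ∨ t = -β)) ∨
          (ρ = 6 * s i0 ∧ b t β = 0 ∧ Rk (C i0) 2 ∧ ¬ Rk (C i0) 3)),
        (i2, γ, 1, fun ρ t => (ρ = 2 * s i2 ∧ (t = γ ∨ t = -γ)) ∨
          (ρ = 6 * s i2 ∧ b t γ = 0 ∧ Rk (C i2) 2 ∧ ¬ Rk (C i2) 3)),
        (i1, α, 2, fun ρ t =>
        (ρ = s i1 ∧ (t = α ∨ t = -α)) ∨ (ρ = 3 * s i1 ∧ b t α = 0 ∧ Rk (C i1) 2 ∧ ¬ Rk (C i1) 3))]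
      hp ct hb (nodup_three hn02 hne hn12) (by
        intro a ha
        simp only [List.mem_cons, List.not_mem_nil, or_false] at ha
        rcases ha with rfl | rfl | rfl
        · exact ⟨AddSubgroup.subset_closure hβ, jβ⟩
        · exact ⟨AddSubgroup.subset_closure hγ, jγ⟩
        · exact ⟨hαc, jα⟩) (by simp) (by
        simp only [List.map_cons, List.map_nil, List.sum_cons, List.sum_nil]
        rw [hαn, hβn, hγn]
        omega) ⟨_, List.mem_cons_self, β', AddSubgroup.subset_closure hβ', by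
          show ¬ (2 : ℤ) ∣ b β β'
          rw [hββ]; exact h0⟩
    obtain ⟨t, ht⟩ := hρ _ List.mem_cons_self
    obtain ⟨t', ht'⟩ := hρ _ (List.mem_cons_of_mem _ List.mem_cons_self)
    obtain ⟨t2, ht2⟩ := hρ _ (List.mem_cons_of_mem _ (List.mem_cons_of_mem _ List.mem_cons_self))
    have e1 : ρ = 2 * s i0 := by
      rcases ht with ⟨e, -⟩ | ⟨-, -, -, e⟩
      · exact e
      · exact absurd h3 e
    have e2 : ρ = 2 * s i2 := by
      rcases ht' with ⟨e, -⟩ | ⟨-, -, e, -⟩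
      · exact e
      · exact absurd e (a1_no_rk hA2')
    have e3 : ρ = s i1 := by
      rcases ht2 with ⟨e, -⟩ | ⟨-, -, e, -⟩
      · exact e
      · exact absurd e (a1_no_rk hA1)
    omega

theorem k_sbs (x_equ : X_EQU) (t_fix : T_FIX) (j_root : J_ROOT) (j_d : J_D) : K_SBS := by
  intro M _ b k C s τ hp ct hb i0 i1 h0 h1 hA
  have hA1 : HasTy b (C i1) (s i1) (.A 1) := hA ▸ ct.ty i1
  obtain ⟨γ, hγ⟩ := (ct.irr i1).ne
  have hγn := (ct.irr i1).norm γ hγ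
  have hγc : γ ∈ AddSubgroup.closure (C i1) := AddSubgroup.subset_closure hγ
  have jγ := j_root M b (C i1) (s i1) γ hp (ct.irr i1) h1 hγ
  refine ⟨fun m hm hD => ?_, fun i2 hf hn h2 hA2 => ?_⟩
  · have hne : i0 ≠ i1 := by
      rintro rfl
      rw [hA] at hD
      exact absurd hD (by simp)
    have hT : HasTy b (C i0) (s i0) (.D m) := hD ▸ ct.ty i0
    obtain ⟨-, F, hF, hF'⟩ := hT
    obtain ⟨x, hx, hx4, ⟨y, hy, hxy⟩, jx⟩ := j_d M b (C i0) (s i0) m 6 F hp (ct.irr i0) h0 hF hF'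
      (by norm_num) (by decide) (by omega)
    obtain ⟨ρ, -, -, hρ⟩ := x_equ M b k C s τ
      [(i0, x, 3, fun ρ _ => ρ = 2 * s i0), (i1, γ, 1, fun ρ t =>
        (ρ = 2 * s i1 ∧ (t = γ ∨ t = -γ)) ∨ (ρ = 6 * s i1 ∧ b t γ = 0 ∧ Rk (C i1) 2 ∧ ¬ Rk (C i1) 3))]
      hp ct hb (nodup_two hne) (by
        intro a ha
        simp only [List.mem_cons, List.not_mem_nil, or_false] at ha
        rcases ha with rfl | rfl
        · exact ⟨hx, by
            have : ((6 : ℕ) : ℤ) / 2 = 3 := by norm_num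
            rw [this] at jx
            exact jx⟩
        · exact ⟨hγc, jγ⟩) (by simp) (by
        simp only [List.map_cons, List.map_nil, List.sum_cons, List.sum_nil]
        rw [hγn]
        push_cast at hx4
        omega) ⟨_, List.mem_cons_self, y, hy, hxy⟩
    obtain ⟨t, ht⟩ := hρ _ List.mem_cons_self
    obtain ⟨t', ht'⟩ := hρ _ (List.mem_cons_of_mem _ List.mem_cons_self)
    have e1 : ρ = 2 * s i0 := ht
    rcases ht' with ⟨e2, -⟩ | ⟨-, -, e3, -⟩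
    · omega
    · exact absurd e3 (a1_no_rk hA1)
  · have hA2' : HasTy b (C i2) (s i2) (.A 1) := hA2 ▸ ct.ty i2
    have hf1 : ¬ (Ty.A 1).fix := by
      show ¬ 6 ≤ 1
      omega
    have hn01 : i0 ≠ i1 := by
      rintro rfl
      rw [hA] at hf
      exact hf1 hf
    have hn02 : i0 ≠ i2 := by
      rintro rfl
      rw [hA2] at hf
      exact hf1 hf
    obtain ⟨x, hx, hx4, ⟨y, hy, hxy⟩, jx⟩ := t_fix M b (C i0) (s i0) (τ i0) hp (ct.irr i0) h0
      (ct.ty i0) hf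
    obtain ⟨δ, hδ⟩ := (ct.irr i2).ne
    have hδn := (ct.irr i2).norm δ hδ
    have jδ := j_root M b (C i2) (s i2) δ hp (ct.irr i2) h2 hδ
    obtain ⟨ρ, -, -, hρ⟩ := x_equ M b k C s τ
      [(i0, x, 2, fun ρ _ => ρ = 2 * s i0),
        (i1, γ, 1, fun ρ t => (ρ = 2 * s i1 ∧ (t = γ ∨ t = -γ)) ∨
          (ρ = 6 * s i1 ∧ b t γ = 0 ∧ Rk (C i1) 2 ∧ ¬ Rk (C i1) 3)),
        (i2, δ, 1, fun ρ t => (ρ = 2 * s i2 ∧ (t = δ ∨ t = -δ)) ∨
          (ρ = 6 * s i2 ∧ b t δ = 0 ∧ Rk (C i2) 2 ∧ ¬ Rk (C i2) 3))]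
      hp ct hb (nodup_three hn01 hn02 hn) (by
        intro a ha
        simp only [List.mem_cons, List.not_mem_nil, or_false] at ha
        rcases ha with rfl | rfl | rfl
        · exact ⟨hx, jx⟩
        · exact ⟨hγc, jγ⟩
        · exact ⟨AddSubgroup.subset_closure hδ, jδ⟩) (by simp) (by
        simp only [List.map_cons, List.map_nil, List.sum_cons, List.sum_nil]
        rw [hγn, hδn]
        omega) ⟨_, List.mem_cons_self, y, hy, hxy⟩
    obtain ⟨t, ht⟩ := hρ _ List.mem_cons_self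
    obtain ⟨t', ht'⟩ := hρ _ (List.mem_cons_of_mem _ List.mem_cons_self)
    have e1 : ρ = 2 * s i0 := ht
    rcases ht' with ⟨e2, -⟩ | ⟨-, -, e3, -⟩
    · omega
    · exact absurd e3 (a1_no_rk hA1)

end Pool.Agent.CN2.H62
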